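import Pool.Agent.Helper52.MA.Defs2
import Pool.Agent.Helper28.MA.OnN
import Pool.Agent.Helper84.MA.PairN

set_option autoImplicit false
set_option linter.unusedSectionVars false

namespace Pool.Agent.Helper52.MA

open Set Pool.Agent.Helper33.HM Pool.Agent.Helper33.HMG Pool.Agent.Helper32.HB

universe u

variable {P : Type u} [Preorder P] [OrderTop P] {Ω : Type} [LinearOrder Ω] [WellFoundedLT Ω]
variable {R : Type} {W : R → (ℕ → Nm P) → P → Nm P → Prop} (g : Gen W)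

theorem tr_mono {U V : RO P} (h : U ≤ V) (hU : Tr g U) : Tr g V := by
  obtain ⟨k, hk⟩ := hU
  exact ⟨k, h _ hk⟩

theorem tr_inf {U V : RO P} : Tr g (U ⊓ V) ↔ Tr g U ∧ Tr g V := by
  constructor
  · rintro ⟨k, hk⟩
    exact ⟨⟨k, hk.1⟩, ⟨k, hk.2⟩⟩
  · rintro ⟨⟨k, hk⟩, ⟨l, hl⟩⟩
    exact ⟨max k l, RO.mem_lower (g.pc_le (le_max_left _ _)) hk,
      RO.mem_lower (g.pc_le (le_max_right _ _)) hl⟩

theorem not_tr_bot : ¬ Tr g (⊥ : RO P) := fun ⟨_, hk⟩ => RO.not_mem_bot _ hk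

theorem tr_compl {U : RO P} (h : Tr g Uᶜ) : ¬ Tr g U := by
  intro hU
  have h1 := (tr_inf g).2 ⟨hU, h⟩
  rw [inf_compl_self] at h1
  exact not_tr_bot g h1

theorem numN_mem (n : ℕ) : numN n ∈ g.N := g.chk_num_mem n

variable (hg : Meets Ω g)
include hg

theorem wN_mem : wN Ω ∈ g.N := by
  obtain ⟨k, ⟨x, hx, h⟩ | h⟩ := hg .w [] (by simp)
  · have h' : x = wN Ω := h
    rw [← h']; exact hx
  · exact absurd rfl (h _ le_rfl (wN Ω))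

theorem upairN_mem {σ τ : Nm P} (hσ : σ ∈ g.N) (hτ : τ ∈ g.N) : upairN σ τ ∈ g.N := by
  obtain ⟨k, ⟨x, hx, h⟩ | h⟩ := hg .up [σ, τ] (by simp [hσ, hτ])
  · have h' : x = upairN σ τ := h
    rw [← h']; exact hx
  · exact absurd rfl (h _ le_rfl (upairN σ τ))

theorem pairN_mem {σ τ : Nm P} (hσ : σ ∈ g.N) (hτ : τ ∈ g.N) : pairN σ τ ∈ g.N := by
  obtain ⟨k, ⟨x, hx, h⟩ | h⟩ := hg .pair [σ, τ] (by simp [hσ, hτ])
  · have h' : x = pairN σ τ := h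
    rw [← h']; exact hx
  · exact absurd rfl (h _ le_rfl (pairN σ τ))

theorem snd_mem {σ τ : Nm P} (h : pairN σ τ ∈ g.N) : τ ∈ g.N := by
  obtain ⟨k, ⟨x, hx, h1⟩ | h1⟩ := hg .snd [pairN σ τ] (by simp [h])
  · obtain ⟨σ', h2⟩ := h1
    have h2' : pairN σ τ = pairN σ' x := h2
    rw [(pairN_injective h2').2]; exact hx
  · exact absurd ⟨σ, rfl⟩ (h1 _ le_rfl τ)

theorem chN_mem {τ : Nm P} (h : τ ∈ g.N) : chN τ ∈ g.N := by
  obtain ⟨k, ⟨x, hx, h⟩ | h⟩ := hg .ch [τ] (by simp [h])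
  · have h' : x = chN τ := h
    rw [← h']; exact hx
  · exact absurd rfl (h _ le_rfl (chN τ))

theorem exists_enum (hI : ∀ b : Ω, (Iio b).Countable) {b : Ω} (h : on b ∈ g.N) :
    ∃ e : ℕ → Ω, (∀ y, y < b → ∃ n, e n = y) ∧ enumN e ∈ g.N := by
  obtain ⟨k, ⟨x, hx, h1⟩ | h1⟩ := hg .enum [on b] (by simp [h])
  · obtain ⟨b', hb', e, he, rfl⟩ := h1
    have hb'' : (on b : Nm P) = on b' := hb'
    rw [← on_injective hb''] at he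
    exact ⟨e, he, hx⟩
  · exfalso
    obtain ⟨e, he⟩ : ∃ e : ℕ → Ω, ∀ y, y < b → ∃ n, e n = y := by
      rcases (Iio b).eq_empty_or_nonempty with h0 | h0
      · exact ⟨fun _ => b, fun y hy => by
          have : y ∈ Iio b := hy
          rw [h0] at this
          exact absurd this (notMem_empty _)⟩
      · obtain ⟨e, he⟩ := (hI b).exists_eq_range h0
        exact ⟨e, fun y hy => by
          have : y ∈ Iio b := hy
          rw [he] at this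
          exact this⟩
    exact h1 _ le_rfl (enumN e) ⟨b, rfl, e, he, rfl⟩

theorem exists_fil {ρ δ : Nm P} (hρ : ρ ∈ g.N) (hδ : δ ∈ g.N)
    (h : Tr g (⨆ G : Ω → RO P, filtV (rel ρ) (rel δ) G)) :
    ∃ G : Ω → RO P, setN G ∈ g.N ∧ Tr g (filtV (rel ρ) (rel δ) G) := by
  obtain ⟨k, ⟨x, hx, G, rfl, h1⟩ | h1⟩ := hg .fil [ρ, δ] (by simp [hρ, hδ])
  · exact ⟨G, hx, k, h1⟩
  · exfalso
    obtain ⟨l, hl⟩ := h
    obtain ⟨r, hr, G, hG⟩ := RO.mem_iSup.1 hl (g.pc (max k l)) (g.pc_le (le_max_right _ _))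
    exact h1 r (hr.trans (g.pc_le (le_max_left _ _))) (setN G) ⟨G, rfl, hG⟩

theorem exists_anti {ρ : Nm P} (hρ : ρ ∈ g.N)
    (h : Tr g (cccV Set.univ (rel (Ω := Ω) ρ))ᶜ) :
    ∃ A : Ω → RO P, setN A ∈ g.N ∧ Tr g (antiV (rel ρ) A) ∧ Tr g (bddV A)ᶜ := by
  obtain ⟨k, ⟨x, hx, A, rfl, h1, h2⟩ | h1⟩ := hg .anti [ρ] (by simp [hρ])
  · exact ⟨A, hx, ⟨k, h1⟩, ⟨k, h2⟩⟩
  · exfalso
    obtain ⟨l, hl⟩ := h
    have e : (cccV Set.univ (rel (Ω := Ω) ρ))ᶜ =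
        ⨆ A : Ω → RO P, ⨆ _ : (∀ x, A x ∈ (univ : Set (RO P))), (antiV (rel ρ) A ⊓ (bddV A)ᶜ) := by
      rw [cccV, compl_iInf]
      refine iSup_congr fun A => ?_
      rw [compl_iInf]
      refine iSup_congr fun _ => ?_
      rw [himp_eq, compl_sup, compl_compl, inf_comm]
    rw [e] at hl
    obtain ⟨r, hr, A, hA⟩ := RO.mem_iSup.1 hl (g.pc (max k l)) (g.pc_le (le_max_right _ _))
    obtain ⟨s, hs, -, hA⟩ := RO.mem_iSup.1 hA r le_rfl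
    exact h1 s (hs.trans (hr.trans (g.pc_le (le_max_left _ _)))) (setN A) ⟨A, rfl, hA.1, hA.2⟩

theorem exists_nat {φ : Nm P} (hφ : φ ∈ g.N)
    (h : Tr g (⨆ n : ℕ, ⨆ y : Ω, ⨆ z : Ω, ⨆ _ : y ≠ z, fnc φ (numN n) y ⊓ fnc φ (numN n) z)) :
    ∃ n : ℕ, Tr g (⨆ y : Ω, ⨆ z : Ω, ⨆ _ : y ≠ z, fnc φ (numN n) y ⊓ fnc φ (numN n) z) := by
  obtain ⟨k, ⟨x, hx, n, rfl, h1⟩ | h1⟩ := hg .nat [φ] (by simp [hφ])
  · exact ⟨n, k, h1⟩
  · exfalso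
    obtain ⟨l, hl⟩ := h
    obtain ⟨r, hr, n, hn⟩ := RO.mem_iSup.1 hl (g.pc (max k l)) (g.pc_le (le_max_right _ _))
    exact h1 r (hr.trans (g.pc_le (le_max_left _ _))) (numN n) ⟨n, rfl, hn⟩

theorem tr_dcd (k : DQ) (t : List (Nm P)) (ht : ∀ x ∈ t, x ∈ g.N) :
    Tr g (dcd Ω k (asg t)) ∨ Tr g (dcd Ω k (asg t))ᶜ := by
  obtain ⟨l, ⟨x, hx, h1⟩ | h1⟩ := hg (.dec k) t ht
  · exact Or.inl ⟨l, h1⟩
  · exact Or.inr ⟨l, fun q hq => h1 q hq emptyN⟩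

theorem tr_fam (k : SQ) (t : List (Nm P)) (ht : ∀ x ∈ t, x ∈ g.N)
    (h : Tr g (⨆ z : Ω, fam k (asg t) z)) :
    ∃ z : Ω, on z ∈ g.N ∧ Tr g (fam k (asg t) z) := by
  obtain ⟨l, ⟨x, hx, z, rfl, h1⟩ | h1⟩ := hg (.sup k) t ht
  · exact ⟨z, hx, l, h1⟩
  · exfalso
    obtain ⟨m, hm⟩ := h
    obtain ⟨r, hr, z, hz⟩ := RO.mem_iSup.1 hm (g.pc (max l m)) (g.pc_le (le_max_right _ _))
    exact h1 r (hr.trans (g.pc_le (le_max_left _ _))) (on z) ⟨z, rfl, hz⟩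

end Pool.Agent.Helper52.MA
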